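import Mathlib
import Pool.Agent.Helper17.SumsetHalf.Cube

/-!
A sharp-order isoperimetric inequality for independent sets of the discrete cube. If `b` and `c`
are the densities of the even and of the odd part of an independent set of the `m`-cube, then
`b + c + v b c ≤ 1` for an explicit sequence `v ~ √(8 / m)`.
-/

namespace Pool.Agent.CLP.Iso

open Finset Pool.Agent.Helper17.SumsetHalf

/-- the algebraic part of the induction step, when the two halves are close -/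
theorem alg_close {v p q : ℝ} (hv : 0 < v) (hq0 : 0 ≤ q) (hqp : q ≤ p) (hp1 : p ≤ 1)
    (hS : p - q ≤ v * q * (1 - p)) :
    (2 + 8 * v * (v + 2) / (v + 4) ^ 2 * (p + q)) *
      ((1 - p) / (1 + v * p) + (1 - q) / (1 + v * q)) ≤ 4 - 2 * (p + q) := by
  have hp0 : 0 ≤ p := hq0.trans hqp
  have h1 : 0 < 1 + v * p := by positivity
  have h2 : 0 < 1 + v * q := by positivity
  have h3 : 0 < 1 + v * (1 - p) := by
    have : 0 ≤ v * (1 - p) := mul_nonneg hv.le (by linarith)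
    linarith
  have h4 : (0 : ℝ) < (v + 4) ^ 2 := by positivity
  set S : ℝ := v * q * (1 - p) - (p - q) with hSdef
  have hS0 : 0 ≤ S := by rw [hSdef]; linarith
  set E : ℝ := v * (2 + v * (p + q)) - (v ^ 2 + 8 * v + 8) * (p - q) with hE
  have hE0 : 0 ≤ E := by
    have h5 : (1 + v * (1 - p)) * E = 2 * v * (v + 1) * (1 - 2 * p) ^ 2 + 2 * (v + 2) ^ 2 * S := by
      rw [hE, hSdef]; ring
    have h6 : 0 ≤ (1 + v * (1 - p)) * E := by
      rw [h5]
      have : 0 ≤ 2 * v * (v + 1) * (1 - 2 * p) ^ 2 := by positivity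
      have : 0 ≤ 2 * (v + 2) ^ 2 * S := by positivity
      linarith
    exact nonneg_of_mul_nonneg_right h6 h3
  have hH : 0 ≤ v * (2 + v * (p + q)) * S + (p - q) * (v + 2) / 2 * E := by
    have h5 : 0 ≤ v * (2 + v * (p + q)) * S := by
      apply mul_nonneg _ hS0
      apply mul_nonneg hv.le
      nlinarith
    have h6 : 0 ≤ (p - q) * (v + 2) / 2 * E := by
      apply mul_nonneg _ hE0
      apply div_nonneg _ (by norm_num)
      apply mul_nonneg (by linarith) (by linarith)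
    linarith
  have hkey : (4 - 2 * (p + q)) -
      (2 + 8 * v * (v + 2) / (v + 4) ^ 2 * (p + q)) *
        ((1 - p) / (1 + v * p) + (1 - q) / (1 + v * q)) =
      2 * v * (v * (2 + v * (p + q)) * S + (p - q) * (v + 2) / 2 * E) /
        ((v + 4) ^ 2 * ((1 + v * p) * (1 + v * q))) := by
    rw [hSdef, hE]
    field_simp
    ring
  have h7 : 0 ≤ 2 * v * (v * (2 + v * (p + q)) * S + (p - q) * (v + 2) / 2 * E) /
        ((v + 4) ^ 2 * ((1 + v * p) * (1 + v * q))) := by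
    positivity
  linarith

/-- the algebraic part of the induction step, when the two halves are far apart -/
theorem alg_far {v p : ℝ} (hv : 0 < v) (hp0 : 0 ≤ p) (hp1 : p ≤ 1) :
    2 * (p + p / (1 + v * (1 - p))) + 2 * ((1 - p) / (1 + v * p) + (1 - p)) +
      8 * v * (v + 2) / (v + 4) ^ 2 * (p + p / (1 + v * (1 - p))) *
        ((1 - p) / (1 + v * p) + (1 - p)) ≤ 4 := by
  have h1 : 0 < 1 + v * p := by positivity
  have h3 : 0 < 1 + v * (1 - p) := by
    have : 0 ≤ v * (1 - p) := mul_nonneg hv.le (by linarith)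
    linarith
  have h4 : (0 : ℝ) < (v + 4) ^ 2 := by positivity
  have hkey : 4 - (2 * (p + p / (1 + v * (1 - p))) + 2 * ((1 - p) / (1 + v * p) + (1 - p)) +
      8 * v * (v + 2) / (v + 4) ^ 2 * (p + p / (1 + v * (1 - p))) *
        ((1 - p) / (1 + v * p) + (1 - p))) =
      8 * v ^ 3 * (v + 2) * (p * (1 - p)) * (1 / 4 - p * (1 - p)) /
        ((v + 4) ^ 2 * ((1 + v * p) * (1 + v * (1 - p)))) := by
    field_simp
    ring
  have h5 : 0 ≤ 8 * v ^ 3 * (v + 2) * (p * (1 - p)) * (1 / 4 - p * (1 - p)) /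
        ((v + 4) ^ 2 * ((1 + v * p) * (1 + v * (1 - p)))) := by
    apply div_nonneg
    · apply mul_nonneg
      · apply mul_nonneg (by positivity)
        exact mul_nonneg hp0 (by linarith)
      · nlinarith [sq_nonneg (p - 1 / 2)]
    · positivity
  linarith

/-- the induction step, ordered version -/
theorem step_ordered {v b0 c0 b1 c1 : ℝ} (hv : 0 < v) (hc0 : 0 ≤ c0)
    (hb1 : 0 ≤ b1) (hc1 : 0 ≤ c1) (h0 : b0 + c0 + v * b0 * c0 ≤ 1)
    (h1 : b1 + c1 + v * b1 * c1 ≤ 1) (h01 : b0 + c1 ≤ 1) (hle : b1 ≤ b0) :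
    2 * (b0 + b1) + 2 * (c0 + c1) + 8 * v * (v + 2) / (v + 4) ^ 2 * (b0 + b1) * (c0 + c1) ≤ 4 := by
  have hb0 : 0 ≤ b0 := hb1.trans hle
  have hb01 : b0 ≤ 1 := by linarith
  have hw : 0 ≤ 8 * v * (v + 2) / (v + 4) ^ 2 := by positivity
  have e0 : 0 < 1 + v * b0 := by positivity
  have e1 : 0 < 1 + v * b1 := by positivity
  have k0 : c0 ≤ (1 - b0) / (1 + v * b0) := by
    rw [le_div_iff₀ e0]; linarith
  have k1 : c1 ≤ (1 - b1) / (1 + v * b1) := by
    rw [le_div_iff₀ e1]; linarith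
  rcases le_total (b0 - b1) (v * b1 * (1 - b0)) with hS | hS
  · have h := alg_close hv hb1 hle hb01 hS
    have h2 : (2 + 8 * v * (v + 2) / (v + 4) ^ 2 * (b0 + b1)) * (c0 + c1) ≤
        (2 + 8 * v * (v + 2) / (v + 4) ^ 2 * (b0 + b1)) *
          ((1 - b0) / (1 + v * b0) + (1 - b1) / (1 + v * b1)) := by
      apply mul_le_mul_of_nonneg_left (by linarith)
      have : 0 ≤ 8 * v * (v + 2) / (v + 4) ^ 2 * (b0 + b1) := mul_nonneg hw (by linarith)
      linarith
    nlinarith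
  · have h := alg_far hv hb0 hb01
    have e2 : 0 < 1 + v * (1 - b0) := by
      have : 0 ≤ v * (1 - b0) := mul_nonneg hv.le (by linarith)
      linarith
    have k2 : b1 ≤ b0 / (1 + v * (1 - b0)) := by
      rw [le_div_iff₀ e2]; linarith
    have k3 : c1 ≤ 1 - b0 := by linarith
    have hP : b0 + b1 ≤ b0 + b0 / (1 + v * (1 - b0)) := by linarith
    have hQ : c0 + c1 ≤ (1 - b0) / (1 + v * b0) + (1 - b0) := by linarith
    have h2 : (b0 + b1) * (c0 + c1) ≤ (b0 + b0 / (1 + v * (1 - b0))) *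
        ((1 - b0) / (1 + v * b0) + (1 - b0)) :=
      mul_le_mul hP hQ (by linarith) (by linarith [add_nonneg hb0 hb1])
    have h3 := mul_le_mul_of_nonneg_left h2 hw
    nlinarith

/-- the induction step -/
theorem step_alg {v b0 c0 b1 c1 : ℝ} (hv : 0 < v) (hb0 : 0 ≤ b0) (hc0 : 0 ≤ c0)
    (hb1 : 0 ≤ b1) (hc1 : 0 ≤ c1) (h0 : b0 + c0 + v * b0 * c0 ≤ 1)
    (h1 : b1 + c1 + v * b1 * c1 ≤ 1) (h01 : b0 + c1 ≤ 1) (h10 : b1 + c0 ≤ 1) :
    2 * (b0 + b1) + 2 * (c0 + c1) + 8 * v * (v + 2) / (v + 4) ^ 2 * (b0 + b1) * (c0 + c1) ≤ 4 := by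
  rcases le_total b1 b0 with h | h
  · exact step_ordered hv hc0 hb1 hc1 h0 h1 h01 h
  · have := step_ordered hv hc1 hb0 hc0 h1 h0 h10 h
    nlinarith

/-- the first step -/
theorem base_alg {b0 c0 b1 c1 : ℝ} (hb0 : 0 ≤ b0) (hc0 : 0 ≤ c0)
    (hb1 : 0 ≤ b1) (hc1 : 0 ≤ c1) (h0 : b0 * c0 = 0) (h1 : b1 * c1 = 0)
    (h0' : b0 + c0 ≤ 1) (h1' : b1 + c1 ≤ 1) (h01 : b0 + c1 ≤ 1) (h10 : b1 + c0 ≤ 1) :
    2 * (b0 + b1) + 2 * (c0 + c1) + 8 * (b0 + b1) * (c0 + c1) ≤ 4 := by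
  rcases mul_eq_zero.1 h0 with h | h <;> rcases mul_eq_zero.1 h1 with h' | h' <;> subst h <;>
    subst h'
  · nlinarith
  · nlinarith [sq_nonneg (b1 - c0)]
  · nlinarith [sq_nonneg (b0 - c1)]
  · nlinarith

end Pool.Agent.CLP.Iso
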