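import Mathlib
import Pool.Agent.CLP.Iso

/-!
The inequality `b + c + v b c ≤ 1` for the parity classes of an independent set of the cube.
-/

namespace Pool.Agent.CLP.Iso

open Finset hiding dens sum_cons mem_slice slice
open Pool.Agent.Helper17.SumsetHalf

variable {m : ℕ}

/-- the signed density -/
noncomputable def sd (Z : Finset (Fin m → Bool)) : ℝ := (∑ x ∈ Z, sg x) / 2 ^ m

/-- independent sets of the cube -/
def Ind (Z : Finset (Fin m → Bool)) : Prop := ∀ x ∈ Z, ∀ i, flip x i ∉ Z

theorem sum_mem {g : (Fin m → Bool) → ℝ} (Z : Finset (Fin m → Bool)) :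
    ∑ x, (if x ∈ Z then g x else 0) = ∑ x ∈ Z, g x := by
  rw [← sum_filter, filter_univ_mem]

theorem sg_cons (b : Bool) (y : Fin m → Bool) :
    sg (Fin.cons b y : Fin (m + 1) → Bool) = (if b then -1 else 1) * sg y := by
  unfold sg
  rw [Fin.prod_univ_succ]
  simp only [Fin.cons_zero, Fin.cons_succ]

theorem dens_cons (Z : Finset (Fin (m + 1) → Bool)) :
    dens Z = (dens (slice Z false) + dens (slice Z true)) / 2 := by
  unfold dens
  rw [card_cons Z, pow_succ]
  push_cast
  field_simp

theorem sd_cons (Z : Finset (Fin (m + 1) → Bool)) :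
    sd Z = (sd (slice Z false) - sd (slice Z true)) / 2 := by
  unfold sd
  rw [← sum_mem, sum_cons]
  simp only [← mem_slice, sg_cons, Bool.false_eq_true, if_false, if_true, one_mul, neg_mul]
  have h1 : ∑ y, (if y ∈ slice Z true then -sg y else 0) = - ∑ y ∈ slice Z true, sg y := by
    rw [← sum_mem (g := sg) (slice Z true), ← sum_neg_distrib]
    refine sum_congr rfl fun y _ => ?_
    split_ifs <;> simp
  rw [h1, sum_mem, pow_succ]
  field_simp
  ring

theorem abs_sd_le (Z : Finset (Fin m → Bool)) : |sd Z| ≤ dens Z := by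
  have hN : (0 : ℝ) < 2 ^ m := by positivity
  unfold sd dens
  rw [abs_div, abs_of_pos hN]
  apply div_le_div_of_nonneg_right _ hN.le
  refine (abs_sum_le_sum_abs _ _).trans ?_
  calc ∑ x ∈ Z, |sg x| = ∑ x ∈ Z, (1 : ℝ) := by
        refine sum_congr rfl fun x _ => ?_
        rcases sg_cases x with h | h <;> rw [h] <;> norm_num
    _ = Z.card := by simp
    _ ≤ _ := le_rfl

theorem plus_nonneg (Z : Finset (Fin m → Bool)) : 0 ≤ dens Z + sd Z := by
  have := abs_le.1 (abs_sd_le Z); linarith

theorem minus_nonneg (Z : Finset (Fin m → Bool)) : 0 ≤ dens Z - sd Z := by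
  have := abs_le.1 (abs_sd_le Z); linarith

theorem cross (hm : 1 ≤ m) {Z W : Finset (Fin m → Bool)} (h : Disjoint Z W) (ε : ℝ)
    (hε : ε = 1 ∨ ε = -1) :
    (dens Z + ε * sd Z) + (dens W + ε * sd W) ≤ 1 := by
  classical
  have hN : (0 : ℝ) < 2 ^ m := by positivity
  have h1 : ∀ Z : Finset (Fin m → Bool),
      dens Z + ε * sd Z = (∑ x ∈ Z, (1 + ε * sg x)) / 2 ^ m := by
    intro Z
    unfold dens sd
    rw [sum_add_distrib, ← mul_sum]
    simp only [sum_const, nsmul_eq_mul, mul_one]
    ring
  rw [h1, h1, ← add_div, ← sum_union h, div_le_one hN]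
  have h2 : ∑ x : Fin m → Bool, (1 + ε * sg x) = 2 ^ m := by
    rw [sum_add_distrib, ← mul_sum, sum_sg hm, sum_const, card_univ, Fintype.card_fun,
      Fintype.card_bool, Fintype.card_fin]
    simp
  rw [← h2]
  apply sum_le_sum_of_subset_of_nonneg (subset_univ _)
  intro x _ _
  rcases hε with h | h <;> rcases sg_cases x with h' | h' <;> rw [h, h'] <;> norm_num

theorem ind_slice {Z : Finset (Fin (m + 1) → Bool)} (h : Ind Z) (b : Bool) : Ind (slice Z b) := by
  intro y hy i hyi
  rw [mem_slice] at hy hyi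
  apply h _ hy i.succ
  rw [flip_cons_succ]
  exact hyi

theorem disj_slice {Z : Finset (Fin (m + 1) → Bool)} (h : Ind Z) :
    Disjoint (slice Z false) (slice Z true) := by
  rw [disjoint_left]
  intro y hy hy'
  rw [mem_slice] at hy hy'
  apply h _ hy 0
  rw [flip_cons_zero]
  exact hy'

theorem two_dec : ∀ x y : Fin 2 → Bool, (x 0 ^^ x 1) = true → (y 0 ^^ y 1) = false →
    ∃ i, flip x i = y := by
  unfold Helper17.SumsetHalf.flip
  decide

theorem sg_two (x : Fin 2 → Bool) : sg x = if (x 0 ^^ x 1) = true then -1 else 1 := by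
  unfold sg
  rw [Fin.prod_univ_two]
  cases x 0 <;> cases x 1 <;> norm_num

theorem ind_two {Z : Finset (Fin 2 → Bool)} (h : Ind Z) :
    (dens Z + sd Z) * (dens Z - sd Z) = 0 := by
  by_cases h1 : ∃ x ∈ Z, (x 0 ^^ x 1) = true
  · obtain ⟨x, hx, hx1⟩ := h1
    have h2 : ∀ y ∈ Z, sg y = -1 := by
      intro y hy
      rw [sg_two]
      by_contra hcon
      have hy1 : (y 0 ^^ y 1) = false := by
        by_contra h'
        rw [Bool.not_eq_false] at h'
        exact hcon (if_pos h')
      obtain ⟨i, hi⟩ := two_dec x y hx1 hy1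
      exact h x hx i (hi ▸ hy)
    have h3 : dens Z + sd Z = 0 := by
      unfold dens sd
      rw [sum_congr rfl h2]
      simp only [sum_const, nsmul_eq_mul]
      ring
    rw [h3, zero_mul]
  · push Not at h1
    have h2 : ∀ y ∈ Z, sg y = 1 := by
      intro y hy
      rw [sg_two, if_neg (h1 y hy)]
    have h3 : dens Z - sd Z = 0 := by
      unfold dens sd
      rw [sum_congr rfl h2]
      simp only [sum_const, nsmul_eq_mul]
      ring
    rw [h3, mul_zero]

/-- the sequence of constants -/
noncomputable def vs : ℕ → ℝ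
  | 0 => 8
  | k + 1 => 8 * vs k * (vs k + 2) / (vs k + 4) ^ 2

theorem vs_pos (k : ℕ) : 0 < vs k := by
  induction k with
  | zero => simp [vs]
  | succ k ih =>
    simp only [vs]
    positivity

theorem le_one {hm : 1 ≤ m} (Z : Finset (Fin m → Bool)) (ε : ℝ) (hε : ε = 1 ∨ ε = -1) :
    dens Z + ε * sd Z ≤ 1 := by
  have := cross hm (disjoint_empty_right Z) ε hε
  simpa [dens, sd] using this

/-- The inequality `b + c + v b c ≤ 1`. -/
theorem ind_ineq (k : ℕ) : ∀ Z : Finset (Fin (k + 3) → Bool), Ind Z →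
    (dens Z + sd Z) + (dens Z - sd Z) + vs k * (dens Z + sd Z) * (dens Z - sd Z) ≤ 1 := by
  induction k with
  | zero =>
    intro Z hZ
    have hI0 := ind_slice hZ false
    have hI1 := ind_slice hZ true
    have hd := disj_slice hZ
    have c1 := cross (by norm_num) hd 1 (Or.inl rfl)
    have c2 := cross (by norm_num) hd (-1) (Or.inr rfl)
    have p1 := le_one (hm := by norm_num) (slice Z false) 1 (Or.inl rfl)
    have p2 := le_one (hm := by norm_num) (slice Z false) (-1) (Or.inr rfl)
    have p3 := le_one (hm := by norm_num) (slice Z true) 1 (Or.inl rfl)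
    have p4 := le_one (hm := by norm_num) (slice Z true) (-1) (Or.inr rfl)
    have q0 := ind_two hI0
    have q1 := ind_two hI1
    have r1 := plus_nonneg (slice Z false)
    have r2 := minus_nonneg (slice Z false)
    have r3 := plus_nonneg (slice Z true)
    have r4 := minus_nonneg (slice Z true)
    have s0 : (dens (slice Z false) + sd (slice Z false)) +
        (dens (slice Z false) - sd (slice Z false)) ≤ 1 := by
      rcases mul_eq_zero.1 q0 with h | h <;> linarith
    have s1 : (dens (slice Z true) - sd (slice Z true)) +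
        (dens (slice Z true) + sd (slice Z true)) ≤ 1 := by
      rcases mul_eq_zero.1 q1 with h | h <;> linarith
    have hb := base_alg r1 r2 r4 r3 q0 (by rw [mul_comm]; exact q1) s0 s1 (by linarith)
      (by linarith)
    rw [dens_cons, sd_cons]
    simp only [vs]
    nlinarith
  | succ k ih =>
    intro Z hZ
    have hI0 := ih _ (ind_slice hZ false)
    have hI1 := ih _ (ind_slice hZ true)
    have hd := disj_slice hZ
    have c1 := cross (by omega) hd 1 (Or.inl rfl)
    have c2 := cross (by omega) hd (-1) (Or.inr rfl)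
    have hb := step_alg (vs_pos k) (plus_nonneg (slice Z false)) (minus_nonneg (slice Z false))
      (minus_nonneg (slice Z true)) (plus_nonneg (slice Z true)) hI0 (by linarith)
      (by linarith) (by linarith)
    rw [dens_cons, sd_cons]
    simp only [vs]
    nlinarith

/-- Variance form of the inequality. -/
theorem ind_var (k : ℕ) (Z : Finset (Fin (k + 3) → Bool)) (hZ : Ind Z) :
    vs k / (vs k + 2) * (dens Z - dens Z ^ 2 - sd Z ^ 2) ≤ 1 / 2 - dens Z := by
  have h := ind_ineq k Z hZ
  have hv := vs_pos k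
  have h1 := plus_nonneg Z
  have h2 := minus_nonneg Z
  rw [div_mul_eq_mul_div, div_le_iff₀ (by linarith)]
  have h3 : 0 ≤ vs k * (dens Z + sd Z) * (dens Z - sd Z) := by positivity
  have h4 : 0 ≤ 1 - 2 * dens Z := by linarith
  have h5 : 0 ≤ dens Z := dens_nonneg Z
  nlinarith [mul_nonneg hv.le (mul_nonneg h4 h4)]

/-- The two-dimensional case. -/
theorem ind_var_two (Z : Finset (Fin 2 → Bool)) (hZ : Ind Z) :
    2 * (dens Z - dens Z ^ 2 - sd Z ^ 2) ≤ 1 / 2 - dens Z := by
  have h0 := ind_two hZ
  have h1 : sd Z ^ 2 = dens Z ^ 2 := by linarith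
  have p1 := le_one (hm := by norm_num) Z 1 (Or.inl rfl)
  have p2 := le_one (hm := by norm_num) Z (-1) (Or.inr rfl)
  have h2 : 2 * dens Z ≤ 1 := by
    rcases mul_eq_zero.1 h0 with h | h <;> linarith
  have h3 : Z.card ≤ 2 := by
    unfold dens at h2
    have h4 : (Z.card : ℝ) ≤ 2 := by linarith
    exact_mod_cast h4
  rw [h1]
  have h5 : dens Z = (Z.card : ℝ) / 4 := by unfold dens; norm_num
  rw [h5]
  interval_cases h : Z.card <;> norm_num

end Pool.Agent.CLP.Iso
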