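import Mathlib
import Pool.Agent.CLP.IsoCube
import Pool.Agent.Helper17.SumsetHalf.Contract

/-!
Averaging an inequality for independent sets of the cube over random cubes generated by a set
which is missed by the sumset.
-/

namespace Pool.Agent.CLP.Iso

open Finset hiding dens sum_cons mem_slice slice
open Pool.Agent.Helper17.SumsetHalf

variable {n : ℕ}

/-- the average over a cube -/
noncomputable def avg {m : ℕ} (f : (Fin n → ZMod 2) → ℝ) (τ : Fin m → Fin n → ZMod 2)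
    (x : Fin n → ZMod 2) : ℝ := (∑ I, f (pt τ x I)) / 2 ^ m

theorem pt_cons_false {m : ℕ} (d : Fin n → ZMod 2) (τ : Fin m → Fin n → ZMod 2)
    (x : Fin n → ZMod 2) (I : Fin m → Bool) :
    pt (Fin.cons d τ : Fin (m + 1) → Fin n → ZMod 2) x (Fin.cons false I) = pt τ x I := by
  unfold pt
  rw [Fin.sum_univ_succ]
  simp only [Fin.cons_zero, Fin.cons_succ]
  simp

theorem pt_cons_true {m : ℕ} (d : Fin n → ZMod 2) (τ : Fin m → Fin n → ZMod 2)
    (x : Fin n → ZMod 2) (I : Fin m → Bool) :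
    pt (Fin.cons d τ : Fin (m + 1) → Fin n → ZMod 2) x (Fin.cons true I) = pt τ (x + d) I := by
  unfold pt
  rw [Fin.sum_univ_succ]
  simp only [Fin.cons_zero, Fin.cons_succ]
  simp [add_assoc]

theorem avg_cons {m : ℕ} (f : (Fin n → ZMod 2) → ℝ) (d : Fin n → ZMod 2)
    (τ : Fin m → Fin n → ZMod 2) (x : Fin n → ZMod 2) :
    avg f (Fin.cons d τ : Fin (m + 1) → Fin n → ZMod 2) x =
      (avg f τ x + avg f τ (x + d)) / 2 := by
  unfold avg
  rw [sum_cons]
  simp only [pt_cons_false, pt_cons_true]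
  rw [pow_succ]
  ring

theorem sum_shift_chi (g : (Fin n → ZMod 2) → ℝ) (r d : Fin n → ZMod 2) :
    ∑ x, g (x + d) * chi r x = chi r d * ∑ x, g x * chi r x := by
  have h := sum_shift (fun x => g x * chi r (x + d)) d
  have h1 : ∀ x : Fin n → ZMod 2, x + d + d = x := by
    intro x; rw [add_assoc, add_self_two, add_zero]
  simp only [h1] at h
  rw [h, mul_sum]
  refine sum_congr rfl fun x _ => ?_
  rw [chi_add]; ring

theorem coef_avg (f : (Fin n → ZMod 2) → ℝ) (r : Fin n → ZMod 2) {m : ℕ} :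
    ∀ τ : Fin m → Fin n → ZMod 2, ∑ x, avg f τ x * chi r x =
      (∑ x, f x * chi r x) * ∏ i, (if r ⬝ᵥ τ i = 0 then (1 : ℝ) else 0) := by
  induction m with
  | zero =>
    intro τ
    simp [avg, pt]
  | succ m ih =>
    intro τ
    rw [← Fin.cons_self_tail τ, Fin.prod_univ_succ]
    simp only [avg_cons, Fin.cons_zero, Fin.cons_succ]
    have h1 : ∀ x, (avg f (Fin.tail τ) x + avg f (Fin.tail τ) (x + τ 0)) / 2 * chi r x =
        (1 / 2) * (avg f (Fin.tail τ) x * chi r x) +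
          (1 / 2) * (avg f (Fin.tail τ) (x + τ 0) * chi r x) := by
      intro x; ring
    simp only [h1, sum_add_distrib, ← mul_sum]
    rw [sum_shift_chi (avg f (Fin.tail τ)) r (τ 0), ih]
    unfold chi
    split_ifs <;> ring

theorem coef_sgn (f : (Fin n → ZMod 2) → ℝ) (r : Fin n → ZMod 2) {m : ℕ} :
    ∀ τ : Fin m → Fin n → ZMod 2, ∑ x, sgn_avg f τ x * chi r x =
      (∑ x, f x * chi r x) * ∏ i, (if r ⬝ᵥ τ i = 0 then (0 : ℝ) else 1) := by
  induction m with
  | zero =>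
    intro τ
    simp [sgn_avg, pt, sg]
  | succ m ih =>
    intro τ
    rw [← Fin.cons_self_tail τ, Fin.prod_univ_succ]
    simp only [sgn_avg_cons, Fin.cons_zero, Fin.cons_succ]
    have h1 : ∀ x, (sgn_avg f (Fin.tail τ) x - sgn_avg f (Fin.tail τ) (x + τ 0)) / 2 * chi r x =
        (1 / 2) * (sgn_avg f (Fin.tail τ) x * chi r x) -
          (1 / 2) * (sgn_avg f (Fin.tail τ) (x + τ 0) * chi r x) := by
      intro x; ring
    simp only [h1, sum_sub_distrib, ← mul_sum]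
    rw [sum_shift_chi (sgn_avg f (Fin.tail τ)) r (τ 0), ih]
    unfold chi
    split_ifs <;> ring

theorem parseval' (g : (Fin n → ZMod 2) → ℝ) :
    2 ^ n * ∑ x, g x ^ 2 = ∑ r, (∑ x, g x * chi r x) ^ 2 := by
  have h7 := parseval g 0
  have h8 : ∀ r : Fin n → ZMod 2, chi r 0 = 1 := by intro r; simp [chi]
  simp only [h8, mul_one, add_zero, ← sq] at h7
  exact h7.symm

theorem prod_sq {m : ℕ} (p : Fin m → Prop) [DecidablePred p] :
    (∏ i, (if p i then (1 : ℝ) else 0)) ^ 2 = ∏ i, (if p i then (1 : ℝ) else 0) := by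
  rw [← prod_pow]
  refine prod_congr rfl fun i _ => ?_
  split_ifs <;> norm_num

theorem prod_sq' {m : ℕ} (p : Fin m → Prop) [DecidablePred p] :
    (∏ i, (if p i then (0 : ℝ) else 1)) ^ 2 = ∏ i, (if p i then (0 : ℝ) else 1) := by
  rw [← prod_pow]
  refine prod_congr rfl fun i _ => ?_
  split_ifs <;> norm_num

/-- the second moment of the average over a random cube -/
theorem sum_avg (E : Finset (Fin n → ZMod 2)) (f : (Fin n → ZMod 2) → ℝ) (m : ℕ) :
    2 ^ n * ∑ τ ∈ Fintype.piFinset (fun _ : Fin m => E), ∑ x, avg f τ x ^ 2 =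
      ∑ r, (∑ x, f x * chi r x) ^ 2 * ((E.filter fun d => r ⬝ᵥ d = 0).card : ℝ) ^ m := by
  rw [mul_sum]
  simp only [parseval', coef_avg, mul_pow, prod_sq]
  rw [sum_comm]
  refine sum_congr rfl fun r _ => ?_
  rw [← mul_sum]
  congr 1
  rw [← prod_univ_sum (fun _ : Fin m => E) (fun _ d => if r ⬝ᵥ d = 0 then (1 : ℝ) else 0)]
  simp

/-- the second moment of the signed average over a random cube -/
theorem sum_sgn (E : Finset (Fin n → ZMod 2)) (f : (Fin n → ZMod 2) → ℝ) (m : ℕ) :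
    2 ^ n * ∑ τ ∈ Fintype.piFinset (fun _ : Fin m => E), ∑ x, sgn_avg f τ x ^ 2 =
      ∑ r, (∑ x, f x * chi r x) ^ 2 *
        ((E.card : ℝ) - ((E.filter fun d => r ⬝ᵥ d = 0).card : ℝ)) ^ m := by
  rw [mul_sum]
  simp only [parseval', coef_sgn, mul_pow, prod_sq']
  rw [sum_comm]
  refine sum_congr rfl fun r _ => ?_
  rw [← mul_sum]
  congr 1
  rw [← prod_univ_sum (fun _ : Fin m => E) (fun _ d => if r ⬝ᵥ d = 0 then (0 : ℝ) else 1)]
  have h1 : ∑ d ∈ E, (if r ⬝ᵥ d = 0 then (0 : ℝ) else 1) =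
      (E.card : ℝ) - ((E.filter fun d => r ⬝ᵥ d = 0).card : ℝ) := by
    have h2 : ∀ d : Fin n → ZMod 2, (if r ⬝ᵥ d = 0 then (0 : ℝ) else 1) =
        1 - (if r ⬝ᵥ d = 0 then (1 : ℝ) else 0) := by
      intro d; split_ifs <;> norm_num
    simp only [h2, sum_sub_distrib]
    simp
  rw [h1]
  simp

/-- an elementary inequality -/
theorem chord {lam q : ℝ} (h0 : 0 ≤ lam) (h1 : lam ≤ q) (h2 : q ≤ 1) (m : ℕ) :
    (1 - q) * (∑ i ∈ range (m + 1), lam ^ i - (1 - lam) ^ m) ≤ 1 - q ^ (m + 1) - (1 - q) ^ (m + 1) := by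
  have h3 : (1 - q) * (∑ i ∈ range (m + 1), q ^ i) = 1 - q ^ (m + 1) := by
    have := mul_neg_geom_sum q (m + 1)
    exact this
  have h4 : 1 - q ^ (m + 1) - (1 - q) ^ (m + 1) =
      (1 - q) * (∑ i ∈ range (m + 1), q ^ i - (1 - q) ^ m) := by
    rw [mul_sub, h3]; ring
  rw [h4]
  apply mul_le_mul_of_nonneg_left _ (by linarith)
  apply sub_le_sub
  · exact sum_le_sum fun i _ => pow_le_pow_left₀ h0 h1 i
  · exact pow_le_pow_left₀ (by linarith) (by linarith) m

end Pool.Agent.CLP.Iso
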