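import Mathlib
import Pool.Agent.CLP.IsoAvg

/-!
The main inequality for a set whose sumset misses `E`.
-/

namespace Pool.Agent.CLP.Iso

open Finset hiding dens sum_cons mem_slice slice
open Pool.Agent.Helper17.SumsetHalf

variable {n : ℕ}

theorem sum_chi_card (E : Finset (Fin n → ZMod 2)) (r : Fin n → ZMod 2) :
    ∑ d ∈ E, chi r d = 2 * ((E.filter fun d => r ⬝ᵥ d = 0).card : ℝ) - E.card := by
  have h5 : ∀ d, chi r d = 2 * (if r ⬝ᵥ d = 0 then 1 else 0) - 1 := by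
    intro d
    unfold chi
    split_ifs <;> norm_num
  simp only [h5, sum_sub_distrib, ← mul_sum]
  rw [← sum_filter]
  simp

theorem average (A E : Finset (Fin n → ZMod 2)) (hE : E.Nonempty)
    (hAE : ∀ a ∈ A, ∀ d ∈ E, a + d ∉ A) {lam K : ℝ} (hl0 : 0 ≤ lam) (hK : 0 ≤ K) (m : ℕ)
    (hcube : ∀ Z : Finset (Fin (m + 1) → Bool), Ind Z →
      K * (dens Z - dens Z ^ 2 - sd Z ^ 2) ≤ 1 / 2 - dens Z)
    (hq : ∀ r : Fin n → ZMod 2, lam * E.card ≤ ((E.filter fun d => r ⬝ᵥ d = 0).card : ℝ)) :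
    K * ((A.card : ℝ) / 2 ^ n / 2) * (∑ i ∈ range (m + 1), lam ^ i - (1 - lam) ^ m) ≤
      1 / 2 - (A.card : ℝ) / 2 ^ n := by
  classical
  have hN : (0 : ℝ) < 2 ^ n := by positivity
  have hM : (0 : ℝ) < 2 ^ (m + 1) := by positivity
  have hE0 : (0 : ℝ) < E.card := by exact_mod_cast hE.card_pos
  let f : (Fin n → ZMod 2) → ℝ := fun x => if x ∈ A then 1 else 0
  have hcardN : (∑ _x : Fin n → ZMod 2, (1 : ℝ)) = 2 ^ n := by
    rw [sum_const, card_univ, Fintype.card_fun, ZMod.card, Fintype.card_fin]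
    simp
  have hf : ∑ x, f x = A.card := by
    simp only [f]
    rw [← sum_filter, filter_univ_mem]
    simp
  have hf2 : ∑ x, f x ^ 2 = A.card := by
    rw [← hf]
    refine sum_congr rfl fun x _ => ?_
    simp only [f]
    split_ifs <;> norm_num
  let Z : (Fin (m + 1) → Fin n → ZMod 2) → (Fin n → ZMod 2) → Finset (Fin (m + 1) → Bool) :=
    fun τ x => univ.filter fun I => pt τ x I ∈ A
  have hZ : ∀ τ x, dens (Z τ x) = avg f τ x := by
    intro τ x
    unfold Helper17.SumsetHalf.dens avg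
    congr 1
    simp only [f, Z]
    rw [← sum_filter]
    simp
  have hZe : ∀ τ x, sd (Z τ x) = sgn_avg f τ x := by
    intro τ x
    unfold sd sgn_avg
    congr 1
    simp only [f, Z, mul_ite, mul_one, mul_zero]
    rw [← sum_filter]
  let P : Finset (Fin (m + 1) → Fin n → ZMod 2) := Fintype.piFinset (fun _ => E)
  have hind : ∀ τ ∈ P, ∀ x, Ind (Z τ x) := by
    intro τ hτ x I hI i
    simp only [P, Fintype.mem_piFinset] at hτ
    simp only [Z, mem_filter, mem_univ, true_and] at hI ⊢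
    rw [pt_flip]
    exact hAE _ hI _ (hτ i)
  have hsumavg : ∀ τ : Fin (m + 1) → Fin n → ZMod 2, ∑ x, avg f τ x = (A.card : ℝ) := by
    intro τ
    unfold avg
    rw [← sum_div, sum_comm, div_eq_iff hM.ne']
    have : ∀ I : Fin (m + 1) → Bool, ∑ x, f (pt τ x I) = A.card := by
      intro I
      unfold pt
      rw [sum_shift f, hf]
    rw [sum_congr rfl fun I _ => this I, sum_const, card_univ, Fintype.card_fun,
      Fintype.card_bool, Fintype.card_fin, nsmul_eq_mul]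
    push_cast
    ring
  have hτ : ∀ τ ∈ P, K * ((A.card : ℝ) - ∑ x, avg f τ x ^ 2 - ∑ x, sgn_avg f τ x ^ 2) ≤
      2 ^ n / 2 - A.card := by
    intro τ hτ
    have h1 : ∑ x, K * (avg f τ x - avg f τ x ^ 2 - sgn_avg f τ x ^ 2) ≤
        ∑ x, (1 / 2 - avg f τ x) := by
      refine sum_le_sum fun x _ => ?_
      have := hcube (Z τ x) (hind τ hτ x)
      rw [hZ, hZe] at this
      exact this
    rw [← mul_sum, sum_sub_distrib, sum_sub_distrib, sum_sub_distrib, hsumavg τ] at h1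
    refine h1.trans (le_of_eq ?_)
    rw [show (∑ _x : Fin n → ZMod 2, (1 / 2 : ℝ)) = (1 / 2) * ∑ _x : Fin n → ZMod 2, (1 : ℝ) by
      rw [mul_sum]; simp, hcardN]
    ring
  have hPcard : (P.card : ℝ) = (E.card : ℝ) ^ (m + 1) := by
    simp [P]
  have hS : K * ((E.card : ℝ) ^ (m + 1) * A.card - ∑ τ ∈ P, ∑ x, avg f τ x ^ 2 -
      ∑ τ ∈ P, ∑ x, sgn_avg f τ x ^ 2) ≤ (E.card : ℝ) ^ (m + 1) * (2 ^ n / 2 - A.card) := by
    have h1 := sum_le_sum hτ
    rw [← mul_sum, sum_sub_distrib, sum_sub_distrib, sum_const, sum_const, nsmul_eq_mul,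
      nsmul_eq_mul, hPcard] at h1
    exact h1
  let F : (Fin n → ZMod 2) → ℝ := fun r => ∑ x, f x * chi r x
  let N : (Fin n → ZMod 2) → ℝ := fun r => ((E.filter fun d => r ⬝ᵥ d = 0).card : ℝ)
  have hA2 : 2 ^ n * ∑ τ ∈ P, ∑ x, avg f τ x ^ 2 = ∑ r, F r ^ 2 * N r ^ (m + 1) :=
    sum_avg E f (m + 1)
  have hS2 : 2 ^ n * ∑ τ ∈ P, ∑ x, sgn_avg f τ x ^ 2 =
      ∑ r, F r ^ 2 * ((E.card : ℝ) - N r) ^ (m + 1) := sum_sgn E f (m + 1)
  have hpar : 2 ^ n * (A.card : ℝ) = ∑ r, F r ^ 2 := by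
    rw [← hf2]; exact parseval' f
  -- the first moment
  have hd0 : ∀ d ∈ E, ∑ r, F r ^ 2 * chi r d = 0 := by
    intro d hd
    rw [parseval f d]
    have : ∀ x, f x * f (x + d) = 0 := by
      intro x
      by_cases h : x ∈ A
      · simp [f, hAE x h d hd]
      · simp [f, h]
    simp [this]
  have hfirst : ∑ r, F r ^ 2 * ((E.card : ℝ) - N r) = 2 ^ n * (A.card : ℝ) * E.card / 2 := by
    have h1 : ∑ r, F r ^ 2 * (2 * N r - E.card) = 0 := by
      simp only [N, ← sum_chi_card, mul_sum]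
      rw [sum_comm]
      exact sum_eq_zero hd0
    have h2 : ∀ r, F r ^ 2 * ((E.card : ℝ) - N r) =
        (E.card : ℝ) / 2 * F r ^ 2 - (1 / 2) * (F r ^ 2 * (2 * N r - E.card)) := by
      intro r; ring
    simp only [h2, sum_sub_distrib, ← mul_sum, h1, ← hpar]
    ring
  set c : ℝ := ∑ i ∈ range (m + 1), lam ^ i - (1 - lam) ^ m with hc
  have hNle : ∀ r, N r ≤ E.card := by
    intro r
    simp only [N]
    exact_mod_cast card_filter_le _ _
  have hpt : ∀ r, (E.card : ℝ) ^ m * ((E.card : ℝ) - N r) * c ≤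
      (E.card : ℝ) ^ (m + 1) - N r ^ (m + 1) - ((E.card : ℝ) - N r) ^ (m + 1) := by
    intro r
    have h1 : lam ≤ N r / E.card := by
      rw [le_div_iff₀ hE0]; exact hq r
    have h2 : N r / E.card ≤ 1 := by
      rw [div_le_one hE0]; exact hNle r
    have h3 := chord hl0 h1 h2 m
    have h4 := mul_le_mul_of_nonneg_left h3 (pow_nonneg hE0.le (m + 1))
    have h5 : (E.card : ℝ) ^ (m + 1) * ((1 - N r / E.card) * c) =
        (E.card : ℝ) ^ m * ((E.card : ℝ) - N r) * c := by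
      rw [pow_succ]; field_simp
    have h6 : (E.card : ℝ) ^ (m + 1) * (1 - (N r / E.card) ^ (m + 1) -
        (1 - N r / E.card) ^ (m + 1)) =
        (E.card : ℝ) ^ (m + 1) - N r ^ (m + 1) - ((E.card : ℝ) - N r) ^ (m + 1) := by
      rw [mul_sub, mul_sub, mul_one, ← mul_pow, ← mul_pow, mul_div_cancel₀ _ hE0.ne', mul_sub,
        mul_one, mul_div_cancel₀ _ hE0.ne']
    rw [h5, h6] at h4
    exact h4
  have hsum : (E.card : ℝ) ^ m * c * (2 ^ n * (A.card : ℝ) * E.card / 2) ≤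
      ∑ r, F r ^ 2 * ((E.card : ℝ) ^ (m + 1) - N r ^ (m + 1) -
        ((E.card : ℝ) - N r) ^ (m + 1)) := by
    rw [← hfirst, mul_sum]
    refine sum_le_sum fun r _ => ?_
    have := mul_le_mul_of_nonneg_left (hpt r) (sq_nonneg (F r))
    refine le_trans (le_of_eq ?_) this
    ring
  have hsum2 : ∑ r, F r ^ 2 * ((E.card : ℝ) ^ (m + 1) - N r ^ (m + 1) -
        ((E.card : ℝ) - N r) ^ (m + 1)) = 2 ^ n * ((E.card : ℝ) ^ (m + 1) * A.card -
        ∑ τ ∈ P, ∑ x, avg f τ x ^ 2 - ∑ τ ∈ P, ∑ x, sgn_avg f τ x ^ 2) := by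
    simp only [mul_sub, sum_sub_distrib]
    rw [← hA2, ← hS2, ← sum_mul, ← hpar]
    ring
  have h1 : K * ((E.card : ℝ) ^ m * c * (2 ^ n * (A.card : ℝ) * E.card / 2)) ≤
      2 ^ n * ((E.card : ℝ) ^ (m + 1) * (2 ^ n / 2 - A.card)) := by
    calc _ ≤ K * (2 ^ n * ((E.card : ℝ) ^ (m + 1) * A.card -
        ∑ τ ∈ P, ∑ x, avg f τ x ^ 2 - ∑ τ ∈ P, ∑ x, sgn_avg f τ x ^ 2)) := by
          rw [← hsum2]
          exact mul_le_mul_of_nonneg_left hsum hK
      _ = 2 ^ n * (K * ((E.card : ℝ) ^ (m + 1) * A.card -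
        ∑ τ ∈ P, ∑ x, avg f τ x ^ 2 - ∑ τ ∈ P, ∑ x, sgn_avg f τ x ^ 2)) := by ring
      _ ≤ _ := mul_le_mul_of_nonneg_left hS hN.le
  have h2 : (2 ^ n * (E.card : ℝ) ^ (m + 1)) * (K * (A.card / 2) * c) ≤
      (2 ^ n * (E.card : ℝ) ^ (m + 1)) * (2 ^ n / 2 - A.card) := by
    refine le_trans (le_of_eq ?_) (h1.trans (le_of_eq ?_))
    · rw [pow_succ]; ring
    · ring
  have h3 := le_of_mul_le_mul_left h2 (by positivity)
  have h4 : K * ((A.card : ℝ) / 2 ^ n / 2) * c = (K * (A.card / 2) * c) / 2 ^ n := by ring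
  have h5 : 1 / 2 - (A.card : ℝ) / 2 ^ n = (2 ^ n / 2 - A.card) / 2 ^ n := by
    field_simp
  rw [h4, h5]
  exact div_le_div_of_nonneg_right h3 hN.le

end Pool.Agent.CLP.Iso
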