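import Mathlib
import Pool.Agent.CLP.IsoMain

/-!
The numerical part: the constants of the cube inequality and the choice of the dimension.
-/

namespace Pool.Agent.CLP.Iso

open Finset hiding dens sum_cons mem_slice slice
open Pool.Agent.Helper17.SumsetHalf

/-- the reciprocal of the square of the constant in the variance inequality -/
noncomputable def us (k : ℕ) : ℝ := ((vs k + 2) / vs k) ^ 2

theorem us_succ (k : ℕ) : us (k + 1) = us k + 1 / 2 + 1 / (16 * us k) := by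
  have hv := vs_pos k
  have h2 : 0 < vs k + 2 := by linarith
  have h4 : 0 < vs k + 4 := by linarith
  unfold us
  simp only [vs]
  field_simp
  ring

theorem us_zero : us 0 = 25 / 16 := by
  unfold us
  simp only [vs]
  norm_num

theorem us_one : us 1 = 841 / 400 := by
  rw [us_succ, us_zero]; norm_num

theorem us_two : us 2 = 885481 / 336400 := by
  rw [us_succ, us_one]; norm_num

theorem us_three : 3.125 ≤ us 3 ∧ us 3 ≤ 3.2 := by
  rw [us_succ, us_two]; norm_num

theorem us_le (k : ℕ) : us k ≤ 0.52 * k + 1.64 := by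
  have h3 : ∀ k : ℕ, 3 ≤ k → 3.125 ≤ us k ∧ us k ≤ 0.52 * k + 1.64 := by
    intro k hk
    induction k, hk using Nat.le_induction with
    | base =>
      refine ⟨us_three.1, us_three.2.trans ?_⟩
      norm_num
    | succ k hk ih =>
      have h1 : 0 < us k := by linarith [ih.1]
      have h2 : 1 / (16 * us k) ≤ 0.02 := by
        rw [div_le_iff₀ (by positivity)]
        linarith [ih.1]
      have h3 : 0 ≤ 1 / (16 * us k) := by positivity
      rw [us_succ]
      push_cast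
      exact ⟨by linarith [ih.1], by linarith [ih.2]⟩
  rcases Nat.lt_or_ge k 3 with hk | hk
  · interval_cases k
    · rw [us_zero]; norm_num
    · rw [us_one]; norm_num
    · rw [us_two]; norm_num
  · exact (h3 k hk).2

/-- the constant in the variance inequality -/
noncomputable def ts (k : ℕ) : ℝ := vs k / (vs k + 2)

theorem ts_pos (k : ℕ) : 0 < ts k := by
  have := vs_pos k
  unfold ts
  positivity

theorem ts_sq (k : ℕ) : 1 / (0.52 * k + 1.64) ≤ ts k ^ 2 := by
  have hv := vs_pos k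
  have h1 : ts k ^ 2 = 1 / us k := by
    unfold ts us
    field_simp
  rw [h1]
  apply one_div_le_one_div_of_le
  · unfold us; positivity
  · exact us_le k

theorem exp_bound : Real.exp (-(5 / 4)) ≤ 0.287 := by
  have h1 : Real.exp (-(5 / 4)) ^ 4 = Real.exp (-1) ^ 5 := by
    rw [← Real.exp_nat_mul, ← Real.exp_nat_mul]
    norm_num
  have h2 : Real.exp (-1) < 0.3678794412 := Real.exp_neg_one_lt_d9
  have h3 : 0 < Real.exp (-1) := Real.exp_pos _
  have h4 : Real.exp (-1) ^ 5 ≤ 0.3678794412 ^ 5 := pow_le_pow_left₀ h3.le h2.le 5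
  have h5 : (0.3678794412 : ℝ) ^ 5 ≤ 0.287 ^ 4 := by norm_num
  have h6 : Real.exp (-(5 / 4)) ^ 4 ≤ 0.287 ^ 4 := by rw [h1]; exact h4.trans h5
  exact le_of_pow_le_pow_left₀ (by norm_num) (by norm_num) h6

theorem poly_ineq {x : ℝ} (h0 : 0 ≤ x) (h1 : x ≤ 0.0461) :
    0.65 + 26.88 * x ^ 2 < 24 * ((1 / 4 - x / 2) * (0.713 + 24 * x ^ 2)) ^ 2 := by
  have h2 : 0.17825 - 0.3565 * x + 5.44 * x ^ 2 ≤ (1 / 4 - x / 2) * (0.713 + 24 * x ^ 2) := by
    nlinarith [mul_nonneg (mul_nonneg h0 h0) (sub_nonneg.2 h1)]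
  have h3 : 0 ≤ 0.17825 - 0.3565 * x + 5.44 * x ^ 2 := by nlinarith
  have h4 : (0.17825 - 0.3565 * x + 5.44 * x ^ 2) ^ 2 ≤
      ((1 / 4 - x / 2) * (0.713 + 24 * x ^ 2)) ^ 2 := pow_le_pow_left₀ h3 h2 2
  have h5 : 0.65 + 26.88 * x ^ 2 < 24 * (0.17825 - 0.3565 * x + 5.44 * x ^ 2) ^ 2 := by
    have h6 : 0 ≤ x ^ 2 * (0.0461 - x) := mul_nonneg (sq_nonneg x) (by linarith)
    have h7 : 0 ≤ x ^ 4 := by positivity
    have h8 : 0 < 0.112553 - 3.0503 * x + 18.42 * x ^ 2 := by nlinarith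
    nlinarith
  linarith

/-- The choice of the dimension. -/
theorem choice {lam δ : ℝ} (h0 : 0 < lam) (h1 : lam ≤ 0.0508) (hδ : 0 ≤ δ)
    (h24 : 24 * δ ^ 2 ≤ lam) :
    ∃ k : ℕ, δ < ts k * ((1 / 2 - δ) / 2) *
      (∑ i ∈ range (k + 2 + 1), lam ^ i - (1 - lam) ^ (k + 2)) := by
  set M : ℕ := ⌈5 / (4 * lam)⌉₊ with hM
  have hM1 : 5 / (4 * lam) ≤ M := Nat.le_ceil _
  have hM2 : (M : ℝ) < 5 / (4 * lam) + 1 := Nat.ceil_lt_add_one (by positivity)
  have hM3 : 5 / 4 ≤ lam * M := by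
    rw [div_le_iff₀ (by positivity)] at hM1
    linarith
  have hM4 : lam * M ≤ 5 / 4 + lam := by
    have h2 : lam * M ≤ lam * (5 / (4 * lam) + 1) := mul_le_mul_of_nonneg_left hM2.le h0.le
    refine h2.trans (le_of_eq ?_)
    field_simp
  have hM5 : 2 ≤ M := by
    have h2 : (2 : ℝ) < M := by
      by_contra hcon
      push Not at hcon
      nlinarith
    exact_mod_cast h2.le
  obtain ⟨k, hk⟩ : ∃ k, M = k + 2 := ⟨M - 2, by omega⟩
  refine ⟨k, ?_⟩
  rw [← hk]
  have hkR : (M : ℝ) = k + 2 := by rw [hk]; push_cast; ring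
  have hexp : (1 - lam) ^ M ≤ 0.287 := by
    have h2 : (1 - lam) ^ M ≤ Real.exp (-(5 / 4)) := by
      calc (1 - lam) ^ M ≤ (Real.exp (-lam)) ^ M := by
            apply pow_le_pow_left₀ (by linarith)
            exact Real.one_sub_le_exp_neg lam
        _ = Real.exp (-(lam * M)) := by
            rw [← Real.exp_nat_mul]
            congr 1
            ring
        _ ≤ Real.exp (-(5 / 4)) := Real.exp_le_exp.2 (by linarith)
    exact h2.trans exp_bound
  have hgeo : 1 + lam ≤ ∑ i ∈ range (M + 1), lam ^ i := by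
    have h2 : ∑ i ∈ range 2, lam ^ i ≤ ∑ i ∈ range (M + 1), lam ^ i := by
      apply sum_le_sum_of_subset_of_nonneg
      · intro i hi
        rw [mem_range] at hi ⊢
        omega
      · intro i _ _
        positivity
    rw [sum_range_succ, sum_range_one] at h2
    simpa using h2
  set c : ℝ := ∑ i ∈ range (M + 1), lam ^ i - (1 - lam) ^ M with hc
  have hc1 : 0.713 + lam ≤ c := by rw [hc]; linarith
  set x : ℝ := √(lam / 24) with hx
  have hx2 : x ^ 2 = lam / 24 := Real.sq_sqrt (by positivity)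
  have hx0 : 0 < x := Real.sqrt_pos.2 (by positivity)
  have hx1 : x ≤ 0.0461 := by
    apply Real.sqrt_le_iff.2
    refine ⟨by norm_num, ?_⟩
    norm_num at h1 ⊢
    linarith
  have hδx : δ ≤ x := by
    apply Real.le_sqrt_of_sq_le
    rw [le_div_iff₀ (by norm_num)]
    linarith
  have hlam : lam = 24 * x ^ 2 := by rw [hx2]; ring
  have hT : lam / (0.65 + 1.12 * lam) ≤ ts k ^ 2 := by
    refine le_trans ?_ (ts_sq k)
    have h2 : (k : ℝ) = M - 2 := by linarith
    rw [div_le_div_iff₀ (by positivity) (by positivity), h2]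
    nlinarith
  have hpoly := poly_ineq hx0.le hx1
  have hT0 := ts_pos k
  have hb0 : 0 ≤ 1 / 4 - x / 2 := by linarith
  have hb1 : 1 / 4 - x / 2 ≤ (1 / 2 - δ) / 2 := by linarith
  have hprod : (1 / 4 - x / 2) * (0.713 + lam) ≤ (1 / 2 - δ) / 2 * c :=
    mul_le_mul hb1 hc1 (by linarith) (by linarith)
  have hprod2 : ((1 / 4 - x / 2) * (0.713 + lam)) ^ 2 ≤ ((1 / 2 - δ) / 2 * c) ^ 2 :=
    pow_le_pow_left₀ (mul_nonneg hb0 (by linarith)) hprod 2
  have hR0 : 0 ≤ ts k * ((1 / 2 - δ) / 2) * c := by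
    apply mul_nonneg (mul_nonneg hT0.le (by linarith)) (by linarith)
  apply lt_of_pow_lt_pow_left₀ 2 hR0
  have h3 : (ts k * ((1 / 2 - δ) / 2) * c) ^ 2 = ts k ^ 2 * ((1 / 2 - δ) / 2 * c) ^ 2 := by ring
  rw [h3]
  have h4 : lam / (0.65 + 1.12 * lam) * ((1 / 4 - x / 2) * (0.713 + lam)) ^ 2 ≤
      ts k ^ 2 * ((1 / 2 - δ) / 2 * c) ^ 2 :=
    mul_le_mul hT hprod2 (sq_nonneg _) (sq_nonneg _)
  refine lt_of_lt_of_le ?_ h4
  have h5 : δ ^ 2 ≤ lam / 24 := by
    rw [le_div_iff₀ (by norm_num)]; linarith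
  refine lt_of_le_of_lt h5 ?_
  rw [div_mul_eq_mul_div, div_lt_div_iff₀ (by norm_num) (by positivity)]
  have h6 : 0.65 + 1.12 * lam < 24 * ((1 / 4 - x / 2) * (0.713 + lam)) ^ 2 := by
    have h7 : 0.65 + 1.12 * lam = 0.65 + 26.88 * x ^ 2 := by rw [hlam]; ring
    rw [h7, hlam]
    exact hpoly
  have h8 := mul_lt_mul_of_pos_left h6 h0
  linarith

end Pool.Agent.CLP.Iso
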