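import Mathlib
import Pool.Agent.Helper17.SumsetHalf.Cover

/-!
The polynomial method of Croot, Lev and Pach for sumsets over the field with two elements:
a dense sumset contains the support of a polynomial of low degree.
-/

namespace Pool.Agent.CLP

open Finset Pool.Agent.Helper17.SumsetHalf

variable {n : ℕ}

theorem delta_eq (a x : Fin n → ZMod 2) :
    (∏ i, ((1 + a i) + x i)) = if x = a then 1 else 0 := by
  split_ifs with h
  · subst h
    refine prod_eq_one fun i _ => ?_
    have : ∀ b : ZMod 2, (1 + b) + b = 1 := by decide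
    exact this _
  · obtain ⟨i, hi⟩ := Function.ne_iff.1 h
    refine prod_eq_zero (mem_univ i) ?_
    have : ∀ b c : ZMod 2, c ≠ b → (1 + b) + c = 0 := by decide
    exact this _ _ hi

theorem mono_add (S : Finset (Fin n)) (x z : Fin n → ZMod 2) :
    mono S (x + z) = ∑ t ∈ S.powerset, mono t x * mono (S \ t) z := by
  unfold mono
  simp only [Pi.add_apply]
  rw [Finset.prod_add]

theorem mono_mul (T t : Finset (Fin n)) (x : Fin n → ZMod 2) :
    mono T x * mono t x = mono (T ∪ t) x := by
  induction t using Finset.induction_on with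
  | empty => simp [mono]
  | insert i t _ ih =>
    rw [← var_mul_mono, ← mul_assoc, mul_comm (mono T x), mul_assoc, ih, var_mul_mono,
      union_insert]

theorem sum_mono (T : Finset (Fin n)) :
    ∑ x : Fin n → ZMod 2, mono T x = if T = univ then 1 else 0 := by
  have h1 : ∀ x : Fin n → ZMod 2, mono T x = ∏ i, (if i ∈ T then x i else 1) := by
    intro x
    unfold mono
    rw [prod_ite_mem, univ_inter]
  simp only [h1]
  have h2 := Finset.prod_univ_sum (fun _ : Fin n => (univ : Finset (ZMod 2)))
    (fun i (b : ZMod 2) => if i ∈ T then b else 1)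
  rw [Fintype.piFinset_univ] at h2
  rw [← h2]
  have h3 : ∀ i : Fin n, (∑ b : ZMod 2, (if i ∈ T then b else 1)) = if i ∈ T then 1 else 0 := by
    intro i
    split_ifs
    · decide
    · decide
  simp only [h3]
  split_ifs with h
  · subst h
    simp
  · obtain ⟨i, hi⟩ : ∃ i, i ∉ T := by
      by_contra hc
      push Not at hc
      exact h (eq_univ_iff_forall.2 hc)
    exact prod_eq_zero (mem_univ i) (by rw [if_neg hi])

theorem conv_mono (T S : Finset (Fin n)) (z : Fin n → ZMod 2) :
    ∑ x, mono T x * mono S (x + z) =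
      ∑ t ∈ S.powerset, (if T ∪ t = univ then (1 : ZMod 2) else 0) * mono (S \ t) z := by
  simp only [mono_add, mul_sum]
  rw [sum_comm]
  refine sum_congr rfl fun t _ => ?_
  rw [← sum_mono, sum_mul]
  refine sum_congr rfl fun x _ => ?_
  rw [← mul_assoc, mono_mul]

/-- the convolution of two functions -/
def conv (f g : (Fin n → ZMod 2) → ZMod 2) : (Fin n → ZMod 2) → ZMod 2 :=
  fun z => ∑ x, f x * g (x + z)

theorem conv_mono_mem {k : ℕ} {T S : Finset (Fin n)} (h : T.card + S.card ≤ n + k) :
    conv (mono T) (mono S) ∈ PolyLE n k := by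
  have : conv (mono T) (mono S) =
      ∑ t ∈ S.powerset, (if T ∪ t = univ then (1 : ZMod 2) else 0) • mono (S \ t) := by
    funext z
    simp only [conv, conv_mono, Finset.sum_apply, Pi.smul_apply, smul_eq_mul]
  rw [this]
  refine Submodule.sum_mem _ fun t ht => ?_
  rw [mem_powerset] at ht
  split_ifs with hT
  · refine Submodule.smul_mem _ _ (mono_mem ?_)
    have h1 : n ≤ T.card + t.card := by
      have := card_union_le T t
      rw [hT, card_univ, Fintype.card_fin] at this
      exact this
    rw [card_sdiff_of_subset ht]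
    omega
  · rw [zero_smul]
    exact Submodule.zero_mem _

theorem conv_mem {k a b : ℕ} (h : a + b ≤ n + k) {f g : (Fin n → ZMod 2) → ZMod 2}
    (hf : f ∈ PolyLE n a) (hg : g ∈ PolyLE n b) : conv f g ∈ PolyLE n k := by
  unfold PolyLE at hf
  induction hf using Submodule.span_induction with
  | mem f hf =>
    simp only [coe_image, Set.mem_image, mem_coe, lowT, mem_filter, mem_univ, true_and] at hf
    obtain ⟨T, hT, rfl⟩ := hf
    unfold PolyLE at hg
    induction hg using Submodule.span_induction with
    | mem g hg =>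
      simp only [coe_image, Set.mem_image, mem_coe, lowT, mem_filter, mem_univ, true_and] at hg
      obtain ⟨S, hS, rfl⟩ := hg
      exact conv_mono_mem (by omega)
    | zero =>
      have : conv (mono T) (0 : (Fin n → ZMod 2) → ZMod 2) = 0 := by
        funext z; simp [conv]
      rw [this]
      exact Submodule.zero_mem _
    | add F G _ _ hF hG =>
      have : conv (mono T) (F + G) = conv (mono T) F + conv (mono T) G := by
        funext z; simp only [conv, Pi.add_apply, mul_add, sum_add_distrib]
      rw [this]
      exact Submodule.add_mem _ hF hG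
    | smul c F _ hF =>
      have : conv (mono T) (c • F) = c • conv (mono T) F := by
        funext z
        simp only [conv, Pi.smul_apply, smul_eq_mul, mul_sum]
        exact sum_congr rfl fun x _ => by ring
      rw [this]
      exact Submodule.smul_mem _ _ hF
  | zero =>
    have : conv (0 : (Fin n → ZMod 2) → ZMod 2) g = 0 := by
      funext z; simp [conv]
    rw [this]
    exact Submodule.zero_mem _
  | add F G _ _ hF hG =>
    have : conv (F + G) g = conv F g + conv G g := by
      funext z; simp only [conv, Pi.add_apply, add_mul, sum_add_distrib]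
    rw [this]
    exact Submodule.add_mem _ hF hG
  | smul c F _ hF =>
    have : conv (c • F) g = c • conv F g := by
      funext z
      simp only [conv, Pi.smul_apply, smul_eq_mul, mul_sum]
      exact sum_congr rfl fun x _ => by ring
    rw [this]
    exact Submodule.smul_mem _ _ hF

theorem translate_mem {b : ℕ} (y : Fin n → ZMod 2) {g : (Fin n → ZMod 2) → ZMod 2}
    (hg : g ∈ PolyLE n b) : (fun x => g (x + y)) ∈ PolyLE n b := by
  unfold PolyLE at hg
  induction hg using Submodule.span_induction with
  | mem g hg =>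
    simp only [coe_image, Set.mem_image, mem_coe, lowT, mem_filter, mem_univ, true_and] at hg
    obtain ⟨S, hS, rfl⟩ := hg
    have : (fun x => mono S (x + y)) = ∑ t ∈ S.powerset, mono (S \ t) y • mono t := by
      funext x
      simp only [mono_add, Finset.sum_apply, Pi.smul_apply, smul_eq_mul]
      exact sum_congr rfl fun t _ => by ring
    rw [this]
    refine Submodule.sum_mem _ fun t ht => Submodule.smul_mem _ _ (mono_mem ?_)
    rw [mem_powerset] at ht
    exact (card_le_card ht).trans hS
  | zero =>
    have : (fun x => (0 : (Fin n → ZMod 2) → ZMod 2) (x + y)) = 0 := by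
      funext x; simp
    rw [this]
    exact Submodule.zero_mem _
  | add F G _ _ hF hG =>
    have : (fun x => (F + G) (x + y)) = (fun x => F (x + y)) + (fun x => G (x + y)) := by
      funext x; simp
    rw [this]
    exact Submodule.add_mem _ hF hG
  | smul c F _ hF =>
    have : (fun x => (c • F) (x + y)) = c • (fun x => F (x + y)) := by
      funext x; simp
    rw [this]
    exact Submodule.smul_mem _ _ hF

theorem mono_span (f : (Fin n → ZMod 2) → ZMod 2) :
    f ∈ Submodule.span (ZMod 2) (Set.range (mono : Finset (Fin n) → _)) := by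
  have hf : f = ∑ a : Fin n → ZMod 2, f a •
      ∑ t ∈ (univ : Finset (Fin n)).powerset, (∏ i ∈ t, (1 + a i)) • mono (univ \ t) := by
    funext x
    simp only [Finset.sum_apply, Pi.smul_apply, smul_eq_mul]
    have h : ∀ a : Fin n → ZMod 2, ∑ t ∈ (univ : Finset (Fin n)).powerset,
        (∏ i ∈ t, (1 + a i)) * mono (univ \ t) x = if x = a then 1 else 0 := by
      intro a
      rw [← delta_eq, Finset.prod_add]
      rfl
    simp only [h, mul_ite, mul_one, mul_zero]
    rw [Finset.sum_ite_eq, if_pos (mem_univ _)]
  rw [hf]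
  exact Submodule.sum_mem _ fun a _ => Submodule.smul_mem _ _ (Submodule.sum_mem _ fun t _ =>
    Submodule.smul_mem _ _ (Submodule.subset_span ⟨_, rfl⟩))

/-- the sets with more than `h` elements -/
def highT (n h : ℕ) : Finset (Finset (Fin n)) := univ.filter fun T => h < T.card

theorem finrank_quot (h : ℕ) :
    Module.finrank (ZMod 2) (((Fin n → ZMod 2) → ZMod 2) ⧸ PolyLE n h) ≤ (highT n h).card := by
  classical
  have hspan : (⊤ : Submodule (ZMod 2) (((Fin n → ZMod 2) → ZMod 2) ⧸ PolyLE n h)) ≤
      Submodule.span (ZMod 2)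
        (((highT n h).image fun T => (PolyLE n h).mkQ (mono T) : Finset _) : Set _) := by
    rintro q -
    obtain ⟨f, rfl⟩ := (PolyLE n h).mkQ_surjective q
    have hf := mono_span f
    induction hf using Submodule.span_induction with
    | mem f hf =>
      obtain ⟨T, rfl⟩ := hf
      by_cases hT : T.card ≤ h
      · have h0 : (PolyLE n h).mkQ (mono T) = 0 := by
          rw [Submodule.mkQ_apply, Submodule.Quotient.mk_eq_zero]
          exact mono_mem hT
        rw [h0]
        exact Submodule.zero_mem _
      · apply Submodule.subset_span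
        rw [coe_image]
        refine ⟨T, ?_, rfl⟩
        rw [mem_coe, highT, mem_filter]
        exact ⟨mem_univ _, by omega⟩
    | zero => rw [map_zero]; exact Submodule.zero_mem _
    | add f g _ _ hf hg => rw [map_add]; exact Submodule.add_mem _ hf hg
    | smul c f _ hf => rw [map_smul]; exact Submodule.smul_mem _ _ hf
  rw [← finrank_top (ZMod 2) (((Fin n → ZMod 2) → ZMod 2) ⧸ PolyLE n h)]
  exact (Submodule.finrank_mono hspan).trans ((finrank_span_finset_le_card _).trans
    card_image_le)

/-- A subspace of more than half the dimension is not self-orthogonal. -/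
theorem exists_not_orthogonal {ι : Type*} [Fintype ι] (S : Submodule (ZMod 2) (ι → ZMod 2))
    (h : Fintype.card ι < 2 * Module.finrank (ZMod 2) S) :
    ∃ f ∈ S, ∃ g ∈ S, ∑ i, f i * g i ≠ 0 := by
  classical
  by_contra hc
  push Not at hc
  let φ : (ι → ZMod 2) →ₗ[ZMod 2] Module.Dual (ZMod 2) (ι → ZMod 2) :=
    { toFun := fun f =>
        { toFun := fun g => ∑ i, f i * g i
          map_add' := fun g g' => by simp only [Pi.add_apply, mul_add, sum_add_distrib]
          map_smul' := fun c g => by
            simp only [Pi.smul_apply, smul_eq_mul, RingHom.id_apply, mul_sum]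
            exact sum_congr rfl fun i _ => by ring }
      map_add' := fun f f' => by
        refine LinearMap.ext fun g => ?_
        show ∑ i, (f + f') i * g i = ∑ i, f i * g i + ∑ i, f' i * g i
        simp only [Pi.add_apply, add_mul, sum_add_distrib]
      map_smul' := fun c f => by
        refine LinearMap.ext fun g => ?_
        show ∑ i, (c • f) i * g i = c * ∑ i, f i * g i
        simp only [Pi.smul_apply, smul_eq_mul, mul_sum]
        exact sum_congr rfl fun i _ => by ring }
  have hφ : ∀ f g, φ f g = ∑ i, f i * g i := fun f g => rfl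
  have hinj : Function.Injective φ := by
    rw [← LinearMap.ker_eq_bot, LinearMap.ker_eq_bot']
    intro f hf
    funext i
    have := LinearMap.congr_fun hf (Pi.single i 1)
    rw [hφ] at this
    simpa [Pi.single_apply] using this
  have hle : S.map φ ≤ S.dualAnnihilator := by
    rintro _ ⟨f, hf, rfl⟩
    rw [Submodule.mem_dualAnnihilator]
    intro g hg
    exact hc f hf g hg
  have h1 := Submodule.finrank_mono hle
  rw [← LinearEquiv.finrank_eq (Submodule.equivMapOfInjective φ hinj S)] at h1
  have h2 := Subspace.finrank_add_finrank_dualAnnihilator_eq S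
  rw [Module.finrank_fintype_fun_eq_card] at h2
  omega

/-- extension by zero from a set -/
def ext (X : Finset (Fin n → ZMod 2)) :
    (X → ZMod 2) →ₗ[ZMod 2] ((Fin n → ZMod 2) → ZMod 2) where
  toFun := fun f x => if h : x ∈ X then f ⟨x, h⟩ else 0
  map_add' := fun f g => by
    funext x
    by_cases h : x ∈ X <;> simp [h]
  map_smul' := fun c f => by
    funext x
    by_cases h : x ∈ X <;> simp [h]

theorem ext_of_mem (X : Finset (Fin n → ZMod 2)) (f : X → ZMod 2) (x : X) :
    ext X f x = f x := by
  show (if h : (x : Fin n → ZMod 2) ∈ X then f ⟨x, h⟩ else 0) = f x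
  rw [dif_pos x.2]

theorem ext_of_notMem (X : Finset (Fin n → ZMod 2)) (f : X → ZMod 2) {x : Fin n → ZMod 2}
    (h : x ∉ X) : ext X f x = 0 := by
  show (if h : x ∈ X then f ⟨x, h⟩ else 0) = 0
  rw [dif_neg h]

/-- Two functions of low degree supported on a large set and with odd inner product. -/
theorem exists_pair (X : Finset (Fin n → ZMod 2)) (h : ℕ) (hX : 2 * (highT n h).card < X.card) :
    ∃ f ∈ PolyLE n h, ∃ g ∈ PolyLE n h, (∀ x ∉ X, f x = 0) ∧ (∀ x ∉ X, g x = 0) ∧
      ∑ x, f x * g x = 1 := by
  classical
  let q : (X → ZMod 2) →ₗ[ZMod 2] (((Fin n → ZMod 2) → ZMod 2) ⧸ PolyLE n h) :=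
    (PolyLE n h).mkQ ∘ₗ ext X
  have h1 := LinearMap.finrank_range_add_finrank_ker q
  have h2 : Module.finrank (ZMod 2) (LinearMap.range q) ≤ (highT n h).card :=
    (Submodule.finrank_le _).trans (finrank_quot h)
  rw [Module.finrank_fintype_fun_eq_card, Fintype.card_coe] at h1
  obtain ⟨f, hf, g, hg, hfg⟩ := exists_not_orthogonal (LinearMap.ker q) (by
    rw [Fintype.card_coe]
    omega)
  have hmem : ∀ f ∈ LinearMap.ker q, ext X f ∈ PolyLE n h := by
    intro f hf
    rw [LinearMap.mem_ker, LinearMap.comp_apply, Submodule.mkQ_apply,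
      Submodule.Quotient.mk_eq_zero] at hf
    exact hf
  refine ⟨ext X f, hmem f hf, ext X g, hmem g hg, fun x hx => ext_of_notMem X f hx,
    fun x hx => ext_of_notMem X g hx, ?_⟩
  have h3 : ∑ x, ext X f x * ext X g x = ∑ i : X, f i * g i := by
    rw [← sum_subset (subset_univ X) fun x _ hx => by rw [ext_of_notMem X f hx, zero_mul]]
    rw [← sum_coe_sort]
    exact sum_congr rfl fun i _ => by rw [ext_of_mem, ext_of_mem]
  rw [h3]
  have : ∀ a : ZMod 2, a ≠ 0 → a = 1 := by decide
  exact this _ hfg

/-- The sumset contains the support of a function of low degree that does not vanish at `y`. -/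
theorem exists_fun (k : ℕ) (A B : Finset (Fin n → ZMod 2)) (y : Fin n → ZMod 2)
    (h : 2 * (highT n ((n + k) / 2)).card < (A.filter fun a => a + y ∈ B).card) :
    ∃ F ∈ PolyLE n k, F y = 1 ∧ ∀ x, F x ≠ 0 → ∃ a ∈ A, ∃ b ∈ B, x = a + b := by
  obtain ⟨f, hf, g, hg, hf0, hg0, hfg⟩ := exists_pair _ _ h
  refine ⟨conv f (fun x => g (x + y)), conv_mem (by omega) hf (translate_mem y hg), ?_, ?_⟩
  · unfold conv
    rw [← hfg]
    refine sum_congr rfl fun x _ => ?_
    have : x + y + y = x := by
      funext i
      have : ∀ a b : ZMod 2, a + b + b = a := by decide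
      exact this _ _
    show f x * g (x + y + y) = f x * g x
    rw [this]
  · intro x hx
    unfold conv at hx
    obtain ⟨z, -, hz⟩ := exists_ne_zero_of_sum_ne_zero hx
    have hz1 : z ∈ A.filter fun a => a + y ∈ B := by
      by_contra hc
      exact hz (by rw [hf0 z hc, zero_mul])
    have hz2 : z + x + y ∈ A.filter fun a => a + y ∈ B := by
      by_contra hc
      apply hz
      show f z * g (z + x + y) = 0
      rw [hg0 _ hc, mul_zero]
    rw [mem_filter] at hz1 hz2
    have h1 : z + x + y + y = z + x := by
      funext i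
      have : ∀ a b c : ZMod 2, a + b + c + c = a + b := by decide
      exact this _ _ _
    refine ⟨z, hz1.1, z + x, by rw [← h1]; exact hz2.2, ?_⟩
    funext i
    have : ∀ a b : ZMod 2, b = a + (a + b) := by decide
    exact this _ _

/-- functions of degree at most `k` come from polynomials -/
theorem exists_poly {k : ℕ} {F : (Fin n → ZMod 2) → ZMod 2} (hF : F ∈ PolyLE n k) :
    ∃ P : MvPolynomial (Fin n) (ZMod 2), P.totalDegree ≤ k ∧ ∀ x, MvPolynomial.eval x P = F x := by
  unfold PolyLE at hF
  induction hF using Submodule.span_induction with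
  | mem F hF =>
    simp only [coe_image, Set.mem_image, mem_coe, lowT, mem_filter, mem_univ, true_and] at hF
    obtain ⟨T, hT, rfl⟩ := hF
    refine ⟨∏ i ∈ T, MvPolynomial.X i, ?_, fun x => ?_⟩
    · refine (MvPolynomial.totalDegree_finset_prod _ _).trans ?_
      refine (sum_le_card_nsmul T _ 1 fun i _ => ?_).trans (by simpa using hT)
      rw [MvPolynomial.totalDegree_X]
    · rw [map_prod]
      simp only [MvPolynomial.eval_X]
      rfl
  | zero => exact ⟨0, by simp, fun x => by simp⟩
  | add F G _ _ hF hG =>
    obtain ⟨P, hP, hP'⟩ := hF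
    obtain ⟨Q, hQ, hQ'⟩ := hG
    refine ⟨P + Q, (MvPolynomial.totalDegree_add P Q).trans (max_le hP hQ), fun x => ?_⟩
    rw [map_add, hP', hQ', Pi.add_apply]
  | smul c F _ hF =>
    obtain ⟨P, hP, hP'⟩ := hF
    refine ⟨MvPolynomial.C c * P, ?_, fun x => ?_⟩
    · refine (MvPolynomial.totalDegree_mul _ _).trans ?_
      rw [MvPolynomial.totalDegree_C, zero_add]
      exact hP
    · rw [map_mul, MvPolynomial.eval_C, hP', Pi.smul_apply, smul_eq_mul]

theorem card_highT (n h : ℕ) :
    (highT n h).card = ∑ j ∈ (range (n + 1)).filter (fun j => h < j), n.choose j := by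
  classical
  rw [card_eq_sum_card_fiberwise (f := Finset.card) (t := (range (n + 1)).filter fun j => h < j)]
  · refine sum_congr rfl fun j hj => ?_
    have : (highT n h).filter (fun T => T.card = j) = powersetCard j univ := by
      ext T
      simp only [highT, mem_filter, mem_univ, true_and, mem_powersetCard, subset_univ]
      constructor
      · exact fun h => h.2
      · intro hT
        rw [mem_filter] at hj
        exact ⟨by omega, hT⟩
    rw [this, card_powersetCard, card_univ, Fintype.card_fin]
  · intro T hT
    rw [mem_coe, highT, mem_filter] at hT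
    rw [mem_coe, mem_filter, mem_range]
    have := card_le_univ T
    rw [Fintype.card_fin] at this
    exact ⟨by omega, hT.2⟩

/-- the tail of the binomial distribution -/
theorem tail_le (n m : ℕ) :
    ∑ j ∈ (range (n + 1)).filter (fun j => n + m ≤ 2 * j), (n.choose j : ℝ) ≤
      2 ^ n * Real.exp (-(m : ℝ) ^ 2 / (2 * n)) := by
  rcases Nat.eq_zero_or_pos n with hn | hn
  · subst hn
    simp only [Nat.cast_zero, mul_zero, div_zero, Real.exp_zero, pow_zero, mul_one]
    refine (sum_le_sum_of_subset_of_nonneg (filter_subset _ _) fun _ _ _ => by positivity).trans ?_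
    simp
  have hnR : (0 : ℝ) < n := by exact_mod_cast hn
  set t : ℝ := m / n with ht
  have h1 : ∀ j ∈ (range (n + 1)).filter (fun j => n + m ≤ 2 * j), (n.choose j : ℝ) ≤
      Real.exp (-(t * m)) * (n.choose j * (Real.exp t ^ j * Real.exp (-t) ^ (n - j))) := by
    intro j hj
    rw [mem_filter, mem_range] at hj
    have h2 : Real.exp t ^ j * Real.exp (-t) ^ (n - j) = Real.exp (t * (2 * j - n)) := by
      rw [← Real.exp_nat_mul, ← Real.exp_nat_mul, ← Real.exp_add]
      congr 1
      rw [Nat.cast_sub (by omega)]
      ring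
    rw [h2]
    have h3 : (1 : ℝ) ≤ Real.exp (-(t * m)) * Real.exp (t * (2 * j - n)) := by
      rw [← Real.exp_add]
      apply Real.one_le_exp
      have h4 : (n : ℝ) + m ≤ 2 * j := by exact_mod_cast hj.2
      have h5 : 0 ≤ t := by positivity
      nlinarith
    calc (n.choose j : ℝ) = n.choose j * 1 := (mul_one _).symm
      _ ≤ n.choose j * (Real.exp (-(t * m)) * Real.exp (t * (2 * j - n))) :=
        mul_le_mul_of_nonneg_left h3 (by positivity)
      _ = _ := by ring
  refine (sum_le_sum h1).trans ?_
  rw [← mul_sum]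
  have h2 : ∑ j ∈ (range (n + 1)).filter (fun j => n + m ≤ 2 * j),
      (n.choose j : ℝ) * (Real.exp t ^ j * Real.exp (-t) ^ (n - j)) ≤
      (Real.exp t + Real.exp (-t)) ^ n := by
    rw [add_pow]
    refine (sum_le_sum_of_subset_of_nonneg (filter_subset _ _)
      fun _ _ _ => by positivity).trans (le_of_eq ?_)
    exact sum_congr rfl fun j _ => by ring
  have h3 : Real.exp t + Real.exp (-t) ≤ 2 * Real.exp (t ^ 2 / 2) := by
    have := Real.cosh_le_exp_half_sq t
    rw [Real.cosh_eq] at this
    linarith
  calc Real.exp (-(t * m)) * ∑ j ∈ (range (n + 1)).filter (fun j => n + m ≤ 2 * j),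
        (n.choose j : ℝ) * (Real.exp t ^ j * Real.exp (-t) ^ (n - j)) ≤
      Real.exp (-(t * m)) * (2 * Real.exp (t ^ 2 / 2)) ^ n := by
        apply mul_le_mul_of_nonneg_left _ (Real.exp_pos _).le
        exact h2.trans (pow_le_pow_left₀ (by positivity) h3 n)
    _ = 2 ^ n * Real.exp (-(m : ℝ) ^ 2 / (2 * n)) := by
      rw [mul_pow, ← Real.exp_nat_mul, mul_left_comm, ← Real.exp_add]
      congr 2
      rw [ht]
      field_simp
      ring

/-- For every point `y` with at least `α 2^n` representations in `A + B`, the sumset `A + B`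
contains the support of a polynomial `P` with `P(y) = 1` and `deg P ≤ √(2 n log (2 / α))`. -/
theorem main (n : ℕ) (α : ℝ) (h0 : 0 < α) (A B : Finset (Fin n → ZMod 2)) (y : Fin n → ZMod 2)
    (h : α * 2 ^ n ≤ (A.filter fun a => a + y ∈ B).card) :
    ∃ P : MvPolynomial (Fin n) (ZMod 2), (P.totalDegree : ℝ) ≤ √(2 * n * Real.log (2 / α)) ∧
      MvPolynomial.eval y P = 1 ∧
      ∀ x, MvPolynomial.eval x P ≠ 0 → ∃ a ∈ A, ∃ b ∈ B, x = a + b := by
  set k : ℕ := ⌊√(2 * n * Real.log (2 / α))⌋₊ with hk
  have hmain : 2 * (highT n ((n + k) / 2)).card < (A.filter fun a => a + y ∈ B).card := by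
    have hR : (2 : ℝ) * (highT n ((n + k) / 2)).card < (A.filter fun a => a + y ∈ B).card := by
      refine lt_of_lt_of_le ?_ h
      rw [card_highT]
      have hf : (range (n + 1)).filter (fun j => (n + k) / 2 < j) =
          (range (n + 1)).filter (fun j => n + (k + 1) ≤ 2 * j) := by
        apply filter_congr
        intro j _
        omega
      rw [hf]
      push_cast
      rcases Nat.eq_zero_or_pos n with hn | hn
      · subst hn
        rw [sum_eq_zero]
        · simpa using h0
        · intro j hj
          rw [mem_filter, mem_range] at hj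
          omega
      · have hnR : (0 : ℝ) < n := by exact_mod_cast hn
        have ht := tail_le n (k + 1)
        have h1 : √(2 * n * Real.log (2 / α)) < ((k + 1 : ℕ) : ℝ) := by
          rw [hk]
          push_cast
          exact Nat.lt_floor_add_one _
        have h2 : 2 * n * Real.log (2 / α) < ((k + 1 : ℕ) : ℝ) ^ 2 := by
          rcases le_or_gt 0 (2 * n * Real.log (2 / α)) with h3 | h3
          · calc 2 * n * Real.log (2 / α) = √(2 * n * Real.log (2 / α)) ^ 2 :=
                (Real.sq_sqrt h3).symm
              _ < _ := pow_lt_pow_left₀ h1 (Real.sqrt_nonneg _) two_ne_zero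
          · exact h3.trans_le (by positivity)
        have h4 : Real.exp (-((k + 1 : ℕ) : ℝ) ^ 2 / (2 * n)) < α / 2 := by
          rw [← Real.exp_log (show (0 : ℝ) < α / 2 by positivity)]
          apply Real.exp_lt_exp.2
          have h5 : Real.log (α / 2) = - Real.log (2 / α) := by
            rw [← Real.log_inv]
            congr 1
            rw [inv_div]
          rw [h5, neg_div, neg_lt_neg_iff, lt_div_iff₀ (by positivity)]
          linarith
        have h6 : (0 : ℝ) < 2 ^ n := by positivity
        calc (2 : ℝ) * ∑ j ∈ (range (n + 1)).filter (fun j => n + (k + 1) ≤ 2 * j),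
              (n.choose j : ℝ) ≤ 2 * (2 ^ n * Real.exp (-((k + 1 : ℕ) : ℝ) ^ 2 / (2 * n))) := by
                linarith
          _ < 2 * (2 ^ n * (α / 2)) := by
                apply mul_lt_mul_of_pos_left _ two_pos
                exact mul_lt_mul_of_pos_left h4 h6
          _ = α * 2 ^ n := by ring
    exact_mod_cast hR
  obtain ⟨F, hF, hy, hsupp⟩ := exists_fun k A B y hmain
  obtain ⟨P, hP, hP'⟩ := exists_poly hF
  refine ⟨P, ?_, by rw [hP', hy], fun x hx => hsupp x (by rwa [hP'] at hx)⟩
  calc (P.totalDegree : ℝ) ≤ k := by exact_mod_cast hP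
    _ ≤ _ := Nat.floor_le (Real.sqrt_nonneg _)

end Pool.Agent.CLP
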