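import Mathlib
import Pool.Agent.CLP.Poly

/-!
Hamming balls: a polynomial whose support is contained in the sumset of a Hamming ball has large
degree.
-/

namespace Pool.Agent.CLP

open Finset Pool.Agent.Helper17.SumsetHalf Pointwise

variable {n : ℕ}

theorem pow_two_field (a : ZMod 2) {e : ℕ} (he : e ≠ 0) : a ^ e = a := by
  have h : ∀ b : ZMod 2, b = 0 ∨ b = 1 := by decide
  rcases h a with h | h <;> rw [h]
  · rw [zero_pow he]
  · rw [one_pow]

/-- polynomials of degree at most `k` give functions of degree at most `k` -/
theorem eval_mem {k : ℕ} {P : MvPolynomial (Fin n) (ZMod 2)} (hP : P.totalDegree ≤ k) :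
    (fun x => MvPolynomial.eval x P) ∈ PolyLE n k := by
  have h1 : (fun x => MvPolynomial.eval x P) =
      ∑ d ∈ P.support, P.coeff d • mono d.support := by
    funext x
    rw [MvPolynomial.eval_eq]
    simp only [Finset.sum_apply, Pi.smul_apply, smul_eq_mul]
    refine sum_congr rfl fun d _ => ?_
    congr 1
    unfold mono
    refine prod_congr rfl fun i hi => ?_
    exact pow_two_field _ (Finsupp.mem_support_iff.1 hi)
  rw [h1]
  refine Submodule.sum_mem _ fun d hd => Submodule.smul_mem _ _ (mono_mem ?_)
  refine le_trans ?_ ((MvPolynomial.le_totalDegree hd).trans hP)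
  rw [Finsupp.sum, card_eq_sum_ones]
  exact sum_le_sum fun i hi => Nat.one_le_iff_ne_zero.2 (Finsupp.mem_support_iff.1 hi)

/-- the indicator of a set -/
def ind (S : Finset (Fin n)) : Fin n → ZMod 2 := fun i => if i ∈ S then 1 else 0

theorem mono_ind_insert {U T : Finset (Fin n)} {i : Fin n} (hi : i ∉ U) :
    mono U (ind (insert i T)) = mono U (ind T) := by
  unfold mono ind
  refine prod_congr rfl fun j hj => ?_
  have hne : j ≠ i := fun h => hi (h ▸ hj)
  simp [hne]

theorem sum_ind {k : ℕ} {f : (Fin n → ZMod 2) → ZMod 2} (hf : f ∈ PolyLE n k)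
    {S : Finset (Fin n)} (hS : k < S.card) : ∑ T ∈ S.powerset, f (ind T) = 0 := by
  unfold PolyLE at hf
  induction hf using Submodule.span_induction with
  | mem F hF =>
    simp only [coe_image, Set.mem_image, mem_coe, lowT, mem_filter, mem_univ, true_and] at hF
    obtain ⟨U, hU, rfl⟩ := hF
    obtain ⟨i, hiS, hiU⟩ : ∃ i ∈ S, i ∉ U := by
      by_contra hc
      push Not at hc
      have := card_le_card (show S ⊆ U from hc)
      omega
    rw [← insert_erase hiS, sum_powerset_insert (notMem_erase i S)]
    rw [← sum_add_distrib]
    refine sum_eq_zero fun T _ => ?_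
    rw [mono_ind_insert hiU]
    exact CharTwo.add_self_eq_zero _
  | zero => simp
  | add F G _ _ hF hG =>
    simp only [Pi.add_apply, sum_add_distrib, hF, hG, add_zero]
  | smul c F _ hF =>
    simp only [Pi.smul_apply, smul_eq_mul, ← mul_sum, hF, mul_zero]

/-- A function of degree at most `k` that vanishes at all points of weight at most `k` is zero. -/
theorem eq_zero_of_low {k : ℕ} {f : (Fin n → ZMod 2) → ZMod 2} (hf : f ∈ PolyLE n k)
    (h0 : ∀ T : Finset (Fin n), T.card ≤ k → f (ind T) = 0) : ∀ S : Finset (Fin n), f (ind S) = 0 := by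
  intro S
  induction S using Finset.strongInduction with
  | H S ih =>
    rcases le_or_gt S.card k with h | h
    · exact h0 S h
    · have h1 := sum_ind hf h
      rw [← sum_erase_add _ _ (mem_powerset_self S), sum_eq_zero, zero_add] at h1
      · exact h1
      · intro T hT
        rw [mem_erase, mem_powerset] at hT
        exact ih T (hT.2.ssubset_of_ne hT.1)

theorem ind_surj (x : Fin n → ZMod 2) : ind (univ.filter fun i => x i ≠ 0) = x := by
  funext i
  unfold ind
  have h : ∀ b : ZMod 2, b = 0 ∨ b = 1 := by decide
  rcases h (x i) with h | h <;> simp [h]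

/-- the weight -/
def wt (x : Fin n → ZMod 2) : ℕ := (univ.filter fun i => x i ≠ 0).card

theorem wt_add_le (x y : Fin n → ZMod 2) : wt (x + y) ≤ wt x + wt y := by
  unfold wt
  refine le_trans (card_le_card ?_) (card_union_le _ _)
  intro i hi
  simp only [mem_filter, mem_univ, true_and, mem_union, Pi.add_apply] at hi ⊢
  by_contra hc
  push Not at hc
  exact hi (by rw [hc.1, hc.2, add_zero])

theorem wt_ind (T : Finset (Fin n)) : wt (ind T) = T.card := by
  unfold wt ind
  congr 1
  ext i
  simp

/-- the ball -/
def ball (n k : ℕ) : Finset (Fin n → ZMod 2) := univ.filter fun x => 2 * wt x + k < n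

theorem card_ball (n k : ℕ) :
    (ball n k).card = ∑ j ∈ (range (n + 1)).filter (fun j => n + k < 2 * j), n.choose j := by
  classical
  have h1 : (ball n k).card = ((univ : Finset (Finset (Fin n))).filter
      fun T => n + k < 2 * T.card).card := by
    apply card_bij' (fun x _ => (univ.filter fun i => x i ≠ 0)ᶜ) (fun T _ => ind Tᶜ)
    · intro x hx
      simp only [ball, mem_filter, mem_univ, true_and, wt] at hx ⊢
      rw [card_compl, Fintype.card_fin]
      have := card_le_univ (univ.filter fun i => x i ≠ 0)
      rw [Fintype.card_fin] at this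
      omega
    · intro T hT
      simp only [ball, mem_filter, mem_univ, true_and] at hT ⊢
      rw [wt_ind, card_compl, Fintype.card_fin]
      have := card_le_univ T
      rw [Fintype.card_fin] at this
      omega
    · intro x _
      simp only [compl_compl]
      exact ind_surj x
    · intro T _
      ext i
      simp [ind]
  rw [h1, card_eq_sum_card_fiberwise (f := Finset.card)
    (t := (range (n + 1)).filter fun j => n + k < 2 * j)]
  · refine sum_congr rfl fun j hj => ?_
    rw [mem_filter] at hj
    have : (((univ : Finset (Finset (Fin n))).filter fun T => n + k < 2 * T.card).filter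
        (fun T => T.card = j)) = powersetCard j univ := by
      ext T
      simp only [mem_filter, mem_univ, true_and, mem_powersetCard, subset_univ]
      constructor
      · exact fun h => h.2
      · intro hT
        exact ⟨by rw [hT]; exact hj.2, hT⟩
    rw [this, card_powersetCard, card_univ, Fintype.card_fin]
  · intro T hT
    rw [mem_coe, mem_filter] at hT
    rw [mem_coe, mem_filter, mem_range]
    have := card_le_univ T
    rw [Fintype.card_fin] at this
    exact ⟨by omega, hT.2⟩

/-- The sumset of the ball contains the support of a polynomial only for large degree. -/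
theorem ball_sharp (n k : ℕ) (P : MvPolynomial (Fin n) (ZMod 2)) (h1 : MvPolynomial.eval 0 P = 1)
    (h0 : ∀ x, x ∉ ball n k + ball n k → MvPolynomial.eval x P = 0) : k < P.totalDegree := by
  by_contra hcon
  push Not at hcon
  have hg := translate_mem (1 : Fin n → ZMod 2) (eval_mem hcon)
  have hself : ∀ x : Fin n → ZMod 2, x + x = 0 := by
    intro x
    funext i
    exact CharTwo.add_self_eq_zero (x i)
  have hlow : ∀ T : Finset (Fin n), T.card ≤ k →
      (fun x : Fin n → ZMod 2 => MvPolynomial.eval (x + 1) P) (ind T) = 0 := by
    intro T hT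
    apply h0
    intro hmem
    rw [mem_add] at hmem
    obtain ⟨a, ha, b, hb, hab⟩ := hmem
    simp only [ball, mem_filter, mem_univ, true_and] at ha hb
    have h2 := wt_add_le a b
    rw [hab] at h2
    have h3 : n ≤ wt (ind T) + wt (ind T + 1) := by
      have h4 := wt_add_le (ind T) (ind T + 1)
      rw [← add_assoc, hself, zero_add] at h4
      refine le_trans (le_of_eq ?_) h4
      simp [wt]
    rw [wt_ind] at h3
    omega
  have hall := eq_zero_of_low hg hlow (univ.filter fun i => (1 : Fin n → ZMod 2) i ≠ 0)
  rw [ind_surj] at hall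
  simp only [hself] at hall
  rw [h1] at hall
  exact one_ne_zero hall

end Pool.Agent.CLP
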